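import Mathlib

set_option autoImplicit false

/-! Sampling lemmas for families with bounded certificates. -/

namespace Q223.HF

open Finset

/-- the probability of the sample `y` under the product of the distribution `μ` -/
noncomputable def wt {Λ ι : Type} [Fintype ι] (μ : Λ → ℝ) (y : ι → Λ) : ℝ := ∏ i, μ (y i)

section

variable {Λ : Type} [Fintype Λ] [DecidableEq Λ]

theorem wt_nonneg {ι : Type} [Fintype ι] {μ : Λ → ℝ} (hμ : ∀ x, 0 ≤ μ x) (y : ι → Λ) :
    0 ≤ wt μ y := Finset.prod_nonneg fun i _ => hμ _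

theorem sum_prod_eq {ι : Type} [Fintype ι] [DecidableEq ι] (g : Λ → ℝ) :
    ∑ y : ι → Λ, ∏ i, g (y i) = (∑ x, g x) ^ Fintype.card ι := by
  have h := Finset.prod_univ_sum (fun _ : ι => (univ : Finset Λ)) (fun _ x => g x)
  rw [Finset.prod_const, Finset.card_univ] at h
  rw [h, Fintype.piFinset_univ]

theorem wt_sum {ι : Type} [Fintype ι] [DecidableEq ι] {μ : Λ → ℝ} (h1 : ∑ x, μ x = 1) :
    ∑ y : ι → Λ, wt μ y = 1 := by
  unfold wt
  rw [sum_prod_eq, h1, one_pow]

/-- lower tail bound -/
theorem tail {ι : Type} [Fintype ι] [DecidableEq ι] {μ : Λ → ℝ} (hμ : ∀ x, 0 ≤ μ x)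
    (h1 : ∑ x, μ x = 1) (D : Finset Λ) (ε : ℝ) (hε1 : ε ≤ 1) (hD : ε ≤ ∑ x ∈ D, μ x) (a : ℕ) :
    ∑ y : ι → Λ, (if (univ.filter fun i => y i ∈ D).card ≤ a then wt μ y else 0) ≤
      2 ^ a * (1 - ε / 2) ^ Fintype.card ι := by
  have key : ∀ y : ι → Λ, (if (univ.filter fun i => y i ∈ D).card ≤ a then wt μ y else 0) ≤
      2 ^ a * ∏ i, (μ (y i) * (if y i ∈ D then (1 / 2 : ℝ) else 1)) := by
    intro y
    have h2 : ∏ i, (if y i ∈ D then (1 / 2 : ℝ) else 1) =
        (1 / 2) ^ (univ.filter fun i => y i ∈ D).card := by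
      rw [Finset.prod_ite, Finset.prod_const, Finset.prod_const_one, mul_one]
    rw [Finset.prod_mul_distrib, h2]
    split_ifs with h
    · have h3 : (1 : ℝ) ≤ 2 ^ a * (1 / 2) ^ (univ.filter fun i => y i ∈ D).card := by
        have : (1 / 2 : ℝ) ^ a ≤ (1 / 2) ^ (univ.filter fun i => y i ∈ D).card :=
          pow_le_pow_of_le_one (by norm_num) (by norm_num) h
        calc (1 : ℝ) = 2 ^ a * (1 / 2) ^ a := by rw [← mul_pow]; norm_num
          _ ≤ _ := by gcongr
      have h4 := wt_nonneg hμ y
      unfold wt at h4 ⊢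
      nlinarith
    · have h4 := wt_nonneg hμ y
      unfold wt at h4
      positivity
  refine (Finset.sum_le_sum fun y _ => key y).trans ?_
  rw [← Finset.mul_sum, sum_prod_eq (fun x => μ x * (if x ∈ D then (1 / 2 : ℝ) else 1))]
  have h5 : ∑ x, μ x * (if x ∈ D then (1 / 2 : ℝ) else 1) = 1 - (∑ x ∈ D, μ x) / 2 := by
    have h6 : ∀ x, μ x * (if x ∈ D then (1 / 2 : ℝ) else 1) =
        μ x - (if x ∈ D then μ x else 0) / 2 := by
      intro x; split_ifs <;> ring
    simp_rw [h6]
    rw [Finset.sum_sub_distrib, h1, ← Finset.sum_div, Finset.sum_ite_mem, Finset.univ_inter]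
  rw [h5]
  have h7 : ∑ x ∈ D, μ x ≤ 1 := by
    rw [← h1]; exact Finset.sum_le_univ_sum_of_nonneg hμ
  gcongr
  linarith

/-- the marginal of the product distribution -/
theorem marginal {ι κ : Type} [Fintype ι] [DecidableEq ι] [Fintype κ] [DecidableEq κ] {μ : Λ → ℝ}
    (h1 : ∑ x, μ x = 1) (e : κ ↪ ι) (Φ : (κ → Λ) → ℝ) :
    ∑ y : ι → Λ, wt μ y * Φ (fun j => y (e j)) = ∑ x : κ → Λ, wt μ x * Φ x := by
  have h2 : ∑ y : ι → Λ, wt μ y * Φ (fun j => y (e j)) =
      ∑ x : κ → Λ, ∑ y ∈ univ.filter (fun y : ι → Λ => (fun j => y (e j)) = x),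
        wt μ y * Φ (fun j => y (e j)) := by
    rw [Finset.sum_fiberwise]
  rw [h2]
  refine Finset.sum_congr rfl fun x _ => ?_
  have h3 : ∀ y ∈ univ.filter (fun y : ι → Λ => (fun j => y (e j)) = x),
      wt μ y * Φ (fun j => y (e j)) = wt μ y * Φ x := by
    intro y hy
    rw [(Finset.mem_filter.mp hy).2]
  rw [Finset.sum_congr rfl h3, ← Finset.sum_mul]
  congr 1
  classical
  let t : ι → Finset Λ := fun i => univ.filter fun v => ∀ j, e j = i → v = x j
  have h4 : univ.filter (fun y : ι → Λ => (fun j => y (e j)) = x) = Fintype.piFinset t := by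
    ext y
    simp only [Finset.mem_filter, Finset.mem_univ, true_and, Fintype.mem_piFinset, t]
    constructor
    · intro h i j hj
      subst hj
      exact congrFun h j
    · intro h
      funext j
      exact h (e j) j rfl
  rw [h4]
  unfold wt
  rw [← Finset.prod_univ_sum t (fun _ v => μ v)]
  have h5 : ∀ i, ∑ v ∈ t i, μ v = if h : ∃ j, e j = i then μ (x h.choose) else 1 := by
    intro i
    split_ifs with h
    · have : t i = {x h.choose} := by
        ext v
        simp only [Finset.mem_filter, Finset.mem_univ, true_and, Finset.mem_singleton, t]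
        constructor
        · intro hv; exact hv _ h.choose_spec
        · intro hv j hj
          have : j = h.choose := e.injective (hj.trans h.choose_spec.symm)
          rw [this]; exact hv
      rw [this, Finset.sum_singleton]
    · have : t i = univ := by
        ext v
        simp only [Finset.mem_filter, Finset.mem_univ, true_and, iff_true, t]
        intro j hj; exact absurd ⟨j, hj⟩ h
      rw [this, h1]
  simp_rw [h5]
  have h6 : ∏ i ∈ univ.map e, (if h : ∃ j, e j = i then μ (x h.choose) else 1) =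
      ∏ i, (if h : ∃ j, e j = i then μ (x h.choose) else 1) := by
    refine Finset.prod_subset (Finset.subset_univ _) fun i _ hi => ?_
    rw [dif_neg]
    rintro ⟨j, hj⟩
    exact hi (Finset.mem_map.mpr ⟨j, Finset.mem_univ _, hj⟩)
  rw [← h6, Finset.prod_map]
  refine Finset.prod_congr rfl fun j _ => ?_
  have h7 : ∃ j', e j' = e j := ⟨j, rfl⟩
  rw [dif_pos h7]
  rw [e.injective h7.choose_spec]

end

section Color

variable {ι κ : Type} [Fintype ι] [DecidableEq ι] [Fintype κ] [DecidableEq κ]

/-- the number of colourings with a property not depending on `I` that are constant on `I` -/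
theorem color_const (z : κ) (I : Finset ι) (P : (ι → κ) → Prop) [DecidablePred P]
    (hP : ∀ χ χ' : ι → κ, (∀ i, i ∉ I → χ i = χ' i) → P χ → P χ') :
    (univ.filter fun χ : ι → κ => P χ ∧ ∀ i ∈ I, χ i = z).card * Fintype.card κ ^ I.card =
      (univ.filter fun χ : ι → κ => P χ).card := by
  let f : (ι → κ) → (ι → κ) := fun χ i => if i ∈ I then z else χ i
  have hf : ∀ χ ∈ univ.filter (fun χ : ι → κ => P χ),
      f χ ∈ univ.filter (fun χ : ι → κ => P χ ∧ ∀ i ∈ I, χ i = z) := by
    intro χ hχ
    rw [Finset.mem_filter] at hχ ⊢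
    refine ⟨Finset.mem_univ _, hP χ _ (fun i hi => ?_) hχ.2, fun i hi => ?_⟩
    · simp [f, hi]
    · simp [f, hi]
  rw [Finset.card_eq_sum_card_fiberwise hf]
  rw [Finset.sum_const_nat (m := Fintype.card κ ^ I.card)]
  intro χ₀ hχ₀
  rw [Finset.mem_filter] at hχ₀
  have h1 : (univ.filter (fun χ : ι → κ => P χ)).filter (fun χ => f χ = χ₀) =
      Fintype.piFinset (fun i => if i ∈ I then (univ : Finset κ) else {χ₀ i}) := by
    ext χ
    simp only [Finset.mem_filter, Finset.mem_univ, true_and, Fintype.mem_piFinset]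
    constructor
    · rintro ⟨_, h2⟩ i
      split_ifs with hi
      · exact Finset.mem_univ _
      · rw [Finset.mem_singleton, ← h2]; simp [f, hi]
    · intro h
      have h3 : ∀ i, i ∉ I → χ i = χ₀ i := by
        intro i hi
        have := h i
        rw [if_neg hi, Finset.mem_singleton] at this
        exact this
      refine ⟨hP χ₀ χ (fun i hi => (h3 i hi).symm) hχ₀.2.1, ?_⟩
      funext i
      by_cases hi : i ∈ I
      · simp only [f, hi, if_true]; exact (hχ₀.2.2 i hi).symm
      · simp only [f, hi, if_false]; exact h3 i hi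
  rw [h1, Fintype.card_piFinset]
  have h4 : ∀ i, (if i ∈ I then (univ : Finset κ) else {χ₀ i}).card =
      if i ∈ I then Fintype.card κ else 1 := by
    intro i; split_ifs <;> simp
  simp_rw [h4]
  rw [Finset.prod_ite_mem, Finset.univ_inter, Finset.prod_const]

/-- no member of a disjoint family of `k` small sets is contained in the colour class of `z` -/
theorem color_avoid (z : κ) (h : ℕ) : ∀ (k : ℕ) (I : Fin k → Finset ι),
    (∀ i j, i ≠ j → Disjoint (I i) (I j)) → (∀ j, (I j).card ≤ h) →
    ((univ.filter fun χ : ι → κ => ∀ j, ¬ ∀ i ∈ I j, χ i = z).card : ℝ) ≤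
      (1 - 1 / (Fintype.card κ : ℝ) ^ h) ^ k * (Fintype.card κ : ℝ) ^ Fintype.card ι := by
  have hb : 1 ≤ Fintype.card κ := Fintype.card_pos_iff.mpr ⟨z⟩
  have hbR : (1 : ℝ) ≤ Fintype.card κ := by exact_mod_cast hb
  intro k
  induction k with
  | zero =>
    intro I _ _
    rw [pow_zero, one_mul]
    have : (univ.filter fun χ : ι → κ => ∀ j : Fin 0, ¬ ∀ i ∈ I j, χ i = z).card ≤
        Fintype.card (ι → κ) := Finset.card_le_univ _
    rw [Fintype.card_fun] at this
    exact_mod_cast this
  | succ k ih =>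
    intro I hd hc
    let P : (ι → κ) → Prop := fun χ => ∀ j : Fin k, ¬ ∀ i ∈ I j.succ, χ i = z
    have hP : ∀ χ χ' : ι → κ, (∀ i, i ∉ I 0 → χ i = χ' i) → P χ → P χ' := by
      intro χ χ' he hχ j hj
      refine hχ j fun i hi => ?_
      rw [he i]
      · exact hj i hi
      · intro hi0
        exact (Finset.disjoint_left.mp (hd 0 j.succ (Fin.succ_ne_zero j).symm) hi0) hi
    have h1 := color_const z (I 0) P hP
    have h2 := ih (fun j => I j.succ) (fun i j hij => hd _ _ (by simpa using hij))
      (fun j => hc _)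
    have h3 : (univ.filter fun χ : ι → κ => ∀ j, ¬ ∀ i ∈ I j, χ i = z) =
        (univ.filter fun χ : ι → κ => P χ) \
          (univ.filter fun χ : ι → κ => P χ ∧ ∀ i ∈ I 0, χ i = z) := by
      ext χ
      simp only [Finset.mem_filter, Finset.mem_univ, true_and, Finset.mem_sdiff, P]
      rw [Fin.forall_fin_succ]
      tauto
    rw [h3, Finset.card_sdiff_of_subset (by
      intro χ hχ
      simp only [Finset.mem_filter, Finset.mem_univ, true_and] at hχ ⊢
      exact hχ.1), Nat.cast_sub (Finset.card_le_card (by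
      intro χ hχ
      simp only [Finset.mem_filter, Finset.mem_univ, true_and] at hχ ⊢
      exact hχ.1))]
    have h4 : ((univ.filter fun χ : ι → κ => P χ ∧ ∀ i ∈ I 0, χ i = z).card : ℝ) *
        (Fintype.card κ : ℝ) ^ (I 0).card = ((univ.filter fun χ : ι → κ => P χ).card : ℝ) := by
      exact_mod_cast h1
    set A : ℝ := ((univ.filter fun χ : ι → κ => P χ ∧ ∀ i ∈ I 0, χ i = z).card : ℝ)
    set B : ℝ := ((univ.filter fun χ : ι → κ => P χ).card : ℝ)
    have hA : 0 ≤ A := Nat.cast_nonneg _
    have h5 : (Fintype.card κ : ℝ) ^ (I 0).card ≤ (Fintype.card κ : ℝ) ^ h :=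
      pow_le_pow_right₀ hbR (hc 0)
    have hpos : 0 < (Fintype.card κ : ℝ) ^ h := by positivity
    have h6 : B ≤ A * (Fintype.card κ : ℝ) ^ h := by
      rw [← h4]; gcongr
    have h7 : B - A ≤ (1 - 1 / (Fintype.card κ : ℝ) ^ h) * B := by
      have : B / (Fintype.card κ : ℝ) ^ h ≤ A := by
        rw [div_le_iff₀ hpos]; exact h6
      have h8 : (1 - 1 / (Fintype.card κ : ℝ) ^ h) * B = B - B / (Fintype.card κ : ℝ) ^ h := by
        ring
      rw [h8]; linarith
    refine h7.trans ?_
    rw [pow_succ]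
    have h9 : 0 ≤ 1 - 1 / (Fintype.card κ : ℝ) ^ h := by
      rw [sub_nonneg, div_le_one hpos]
      exact one_le_pow₀ hbR
    calc (1 - 1 / (Fintype.card κ : ℝ) ^ h) * B
        ≤ (1 - 1 / (Fintype.card κ : ℝ) ^ h) *
          ((1 - 1 / (Fintype.card κ : ℝ) ^ h) ^ k * (Fintype.card κ : ℝ) ^ Fintype.card ι) := by
          gcongr
      _ = _ := by ring

/-- at least half of the colourings have a small colour class -/
theorem color_small (z : κ) (m : ℕ) (hm : 2 * Fintype.card ι ≤ Fintype.card κ * (m + 1)) :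
    Fintype.card κ ^ Fintype.card ι ≤
      2 * (univ.filter fun χ : ι → κ => (univ.filter fun i => χ i = z).card ≤ m).card := by
  have hb : 1 ≤ Fintype.card κ := Fintype.card_pos_iff.mpr ⟨z⟩
  have h1 : ∀ i : ι, (univ.filter fun χ : ι → κ => χ i = z).card * Fintype.card κ =
      Fintype.card κ ^ Fintype.card ι := by
    intro i
    have := color_const z {i} (fun _ : ι → κ => True) (fun _ _ _ _ => trivial)
    simp only [true_and, Finset.mem_singleton, forall_eq, Finset.card_singleton, pow_one,
      Finset.filter_true, Finset.card_univ, Fintype.card_fun] at this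
    exact this
  have h2 : ∑ χ : ι → κ, (univ.filter fun i => χ i = z).card =
      ∑ i : ι, (univ.filter fun χ : ι → κ => χ i = z).card := by
    simp_rw [Finset.card_filter]
    rw [Finset.sum_comm]
  have h3 : (∑ χ : ι → κ, (univ.filter fun i => χ i = z).card) * Fintype.card κ =
      Fintype.card ι * Fintype.card κ ^ Fintype.card ι := by
    rw [h2, Finset.sum_mul, Finset.sum_congr rfl (fun i _ => h1 i), Finset.sum_const,
      Finset.card_univ, smul_eq_mul]
  set G := univ.filter fun χ : ι → κ => (univ.filter fun i => χ i = z).card ≤ m with hG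
  set Bd := univ.filter fun χ : ι → κ => ¬ (univ.filter fun i => χ i = z).card ≤ m with hB
  have h4 : G.card + Bd.card = Fintype.card κ ^ Fintype.card ι := by
    rw [hG, hB, Finset.card_filter_add_card_filter_not]
    simp
  have h5 : Bd.card * (m + 1) ≤ ∑ χ : ι → κ, (univ.filter fun i => χ i = z).card := by
    calc Bd.card * (m + 1) = ∑ χ ∈ Bd, (m + 1) := by rw [Finset.sum_const, smul_eq_mul]
      _ ≤ ∑ χ ∈ Bd, (univ.filter fun i => χ i = z).card := by
          refine Finset.sum_le_sum fun χ hχ => ?_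
          have := (Finset.mem_filter.mp hχ).2
          omega
      _ ≤ _ := Finset.sum_le_sum_of_subset (Finset.subset_univ _)
  have h6 : 2 * (Bd.card * (m + 1)) * Fintype.card κ ≤
      (Fintype.card κ * (m + 1)) * Fintype.card κ ^ Fintype.card ι := by
    calc 2 * (Bd.card * (m + 1)) * Fintype.card κ
        ≤ 2 * (∑ χ : ι → κ, (univ.filter fun i => χ i = z).card) * Fintype.card κ := by gcongr
      _ = 2 * Fintype.card ι * Fintype.card κ ^ Fintype.card ι := by
          rw [mul_assoc, h3]; ring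
      _ ≤ _ := by gcongr
  have h7 : 2 * Bd.card ≤ Fintype.card κ ^ Fintype.card ι := by
    have hpos : 0 < (m + 1) * Fintype.card κ := by positivity
    refine Nat.le_of_mul_le_mul_right (c := (m + 1) * Fintype.card κ) ?_ hpos
    calc 2 * Bd.card * ((m + 1) * Fintype.card κ) = 2 * (Bd.card * (m + 1)) * Fintype.card κ := by
          ring
      _ ≤ _ := h6
      _ = _ := by ring
  omega

end Color

/-- the greedy family of disjoint certificates -/
theorem greedy {Λ ι : Type} [DecidableEq Λ] [Fintype ι] [DecidableEq ι] (𝓕 : Finset Λ → Prop)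
    (h : ℕ) (hcert : ∀ S, ¬ 𝓕 S → ∃ T ⊆ S, T.card ≤ h ∧ ¬ 𝓕 T) (y : ι → Λ) (P : Finset ι) (a : ℕ)
    (hy : ∀ J ⊆ P, J.card ≤ a → ¬ 𝓕 ((P \ J).image y)) :
    ∀ k : ℕ, (k - 1) * h ≤ a → ∃ I : Fin k → Finset ι, (∀ i j, i ≠ j → Disjoint (I i) (I j)) ∧
      ∀ j, I j ⊆ P ∧ (I j).card ≤ h ∧ ¬ 𝓕 ((I j).image y) := by
  intro k
  induction k with
  | zero => exact fun _ => ⟨fun _ => ∅, fun i => i.elim0, fun j => j.elim0⟩
  | succ k ih =>
    intro hk
    obtain ⟨I, hd, hI⟩ := ih ((Nat.mul_le_mul_right h (by omega)).trans hk)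
    let J : Finset ι := univ.biUnion I
    have hJP : J ⊆ P := Finset.biUnion_subset.mpr fun j _ => (hI j).1
    have hJc : J.card ≤ a := by
      calc J.card ≤ ∑ j : Fin k, (I j).card := Finset.card_biUnion_le
        _ ≤ ∑ _j : Fin k, h := Finset.sum_le_sum fun j _ => (hI j).2.1
        _ = k * h := by simp
        _ ≤ a := by simpa using hk
    obtain ⟨T, hT, hTc, hTF⟩ := hcert _ (hy J hJP hJc)
    obtain ⟨I', hI', hI'T, hI'c⟩ : ∃ I' ⊆ P \ J, I'.image y = T ∧ I'.card = T.card := by
      have h0 : ∀ t ∈ T, ∃ i ∈ P \ J, y i = t := fun t ht => Finset.mem_image.mp (hT ht)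
      choose g hg1 hg2 using h0
      refine ⟨T.attach.image (fun t => g t.1 t.2), ?_, ?_, ?_⟩
      · intro i hi
        obtain ⟨t, _, rfl⟩ := Finset.mem_image.mp hi
        exact hg1 t.1 t.2
      · ext v
        simp only [Finset.mem_image, Finset.mem_attach, true_and, Subtype.exists]
        constructor
        · rintro ⟨i, ⟨t, ht, rfl⟩, rfl⟩
          rw [hg2 t ht]; exact ht
        · intro hv
          exact ⟨_, ⟨v, hv, rfl⟩, hg2 v hv⟩
      · rw [Finset.card_image_of_injective, Finset.card_attach]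
        intro t t' htt
        have h1 : y (g t.1 t.2) = y (g t'.1 t'.2) := congrArg y htt
        rw [hg2, hg2] at h1
        exact Subtype.ext h1
    refine ⟨Fin.cons I' I, ?_, ?_⟩
    · have hdis : ∀ j, Disjoint I' (I j) := by
        intro j
        rw [Finset.disjoint_left]
        intro i hi hij
        have := Finset.mem_sdiff.mp (hI' hi)
        exact this.2 (Finset.mem_biUnion.mpr ⟨j, Finset.mem_univ _, hij⟩)
      intro i j
      refine Fin.cases ?_ (fun i' => ?_) i <;> refine Fin.cases ?_ (fun j' => ?_) j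
      · simp
      · intro _; simpa using hdis j'
      · intro _; simpa using (hdis i').symm
      · intro hij; simpa using hd i' j' (by simpa using hij)
    · intro j
      refine Fin.cases ?_ (fun j' => ?_) j
      · simp only [Fin.cons_zero]
        exact ⟨hI'.trans Finset.sdiff_subset, by omega, by rw [hI'T]; exact hTF⟩
      · simpa using hI j'

end Q223.HF
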