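import Mathlib

set_option autoImplicit false

/-! Graphs on `Fin n` given by finite sets of pairs; free families. -/

namespace Q223.HF

open Finset

/-- the pairs of distinct elements -/
abbrev Pr (n : ℕ) : Type := {e : Sym2 (Fin n) // ¬ e.IsDiag}

/-- the graph with the given edges -/
def gr {n : ℕ} (E : Finset (Pr n)) : SimpleGraph (Fin n) :=
  SimpleGraph.fromEdgeSet {e | ∃ h : ¬ e.IsDiag, (⟨e, h⟩ : Pr n) ∈ E}

theorem gr_edgeSet {n : ℕ} (E : Finset (Pr n)) :
    (gr E).edgeSet = {e | ∃ h : ¬ e.IsDiag, (⟨e, h⟩ : Pr n) ∈ E} := by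
  unfold gr
  rw [SimpleGraph.edgeSet_fromEdgeSet]
  ext e
  simp only [Set.mem_diff, Set.mem_setOf_eq]
  constructor
  · exact fun h => h.1
  · rintro ⟨h, h'⟩
    exact ⟨⟨h, h'⟩, by simpa using h⟩

theorem gr_mono {n : ℕ} {E E' : Finset (Pr n)} (h : E ⊆ E') : gr E ≤ gr E' := by
  rw [← SimpleGraph.edgeSet_subset_edgeSet, gr_edgeSet, gr_edgeSet]
  rintro e ⟨h1, h2⟩
  exact ⟨h1, h h2⟩

theorem card_le_extremal {n : ℕ} {W : Type*} (H : SimpleGraph W) (E : Finset (Pr n))
    (hE : H.Free (gr E)) : E.card ≤ SimpleGraph.extremalNumber n H := by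
  classical
  have h1 := SimpleGraph.card_edgeFinset_le_extremalNumber hE
  rw [Fintype.card_fin] at h1
  refine le_trans ?_ h1
  have h2 : E.map (Function.Embedding.subtype _) ⊆ (gr E).edgeFinset := by
    intro e he
    rw [Finset.mem_map] at he
    obtain ⟨x, hx, rfl⟩ := he
    rw [SimpleGraph.mem_edgeFinset, gr_edgeSet]
    exact ⟨x.2, hx⟩
  calc E.card = (E.map (Function.Embedding.subtype _)).card := (Finset.card_map _).symm
    _ ≤ _ := Finset.card_le_card h2

/-- few sets of bounded size -/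
theorem card_bounded {Λ : Type} [Fintype Λ] [DecidableEq Λ] (d : ℕ) :
    (univ.filter fun S : Finset Λ => S.card ≤ d).card ≤ (Fintype.card Λ + 1) ^ d := by
  let f : (Fin d → Option Λ) → Finset Λ := fun x => univ.filter fun v => ∃ i, x i = some v
  have h : (univ.filter fun S : Finset Λ => S.card ≤ d) ⊆ univ.image f := by
    intro S hS
    rw [Finset.mem_filter] at hS
    rw [Finset.mem_image]
    let e := S.equivFin
    refine ⟨fun i => if h : i.val < S.card then some (e.symm ⟨i.val, h⟩).1 else none,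
      Finset.mem_univ _, ?_⟩
    ext v
    simp only [f, Finset.mem_filter, Finset.mem_univ, true_and]
    constructor
    · rintro ⟨i, hi⟩
      split_ifs at hi with h
      rw [Option.some.injEq] at hi
      rw [← hi]
      exact (e.symm _).2
    · intro hv
      have h1 : (e ⟨v, hv⟩).val < S.card := (e ⟨v, hv⟩).2
      refine ⟨⟨(e ⟨v, hv⟩).val, h1.trans_le hS.2⟩, ?_⟩
      rw [dif_pos h1]
      simp
  calc _ ≤ (univ.image f).card := Finset.card_le_card h
    _ ≤ (univ : Finset (Fin d → Option Λ)).card := Finset.card_image_le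
    _ = _ := by
      rw [Finset.card_univ, Fintype.card_fun, Fintype.card_option, Fintype.card_fin]

theorem card_pairs (n : ℕ) (hn : 2 ≤ n) : Fintype.card (Pr n) + 1 ≤ n ^ 2 := by
  rw [Sym2.card_subtype_not_diag, Fintype.card_fin, Nat.choose_two_right]
  obtain ⟨k, rfl⟩ : ∃ k, n = k + 2 := ⟨n - 2, by omega⟩
  have : (k + 2) * (k + 2 - 1) / 2 ≤ (k + 2) * (k + 2 - 1) / 1 :=
    Nat.div_le_div_left (by norm_num) (by norm_num)
  rw [Nat.div_one] at this
  have h2 : (k + 2) * (k + 2 - 1) = (k + 2) * (k + 1) := by rfl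
  nlinarith

/-- certificates -/
theorem certificate {n : ℕ} {W : Type*} [Finite W] (H : SimpleGraph W) (S : Finset (Pr n))
    (hS : ¬ H.Free (gr S)) : ∃ T ⊆ S, T.card ≤ H.edgeSet.ncard ∧ ¬ H.Free (gr T) := by
  classical
  have : Fintype W := Fintype.ofFinite W
  rw [SimpleGraph.not_free] at hS
  obtain ⟨φ⟩ := hS
  have hmem : ∀ e ∈ H.edgeSet, ∃ h : ¬ (e.map φ).IsDiag, (⟨e.map φ, h⟩ : Pr n) ∈ S := by
    intro e he
    have h1 : e.map φ ∈ (gr S).edgeSet := φ.toHom.map_mem_edgeSet he
    rwa [gr_edgeSet] at h1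
  let T : Finset (Pr n) := S.filter fun x => ∃ e ∈ H.edgeSet, e.map φ = x.1
  refine ⟨T, Finset.filter_subset _ _, ?_, ?_⟩
  · have h1 : T.map (Function.Embedding.subtype _) ⊆ H.edgeFinset.image (Sym2.map φ) := by
      intro x hx
      rw [Finset.mem_map] at hx
      obtain ⟨y, hy, rfl⟩ := hx
      obtain ⟨e, he, h2⟩ := (Finset.mem_filter.mp hy).2
      exact Finset.mem_image.mpr ⟨e, SimpleGraph.mem_edgeFinset.mpr he, h2⟩
    calc T.card = (T.map (Function.Embedding.subtype _)).card := (Finset.card_map _).symm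
      _ ≤ (H.edgeFinset.image (Sym2.map φ)).card := Finset.card_le_card h1
      _ ≤ H.edgeFinset.card := Finset.card_image_le
      _ = H.edgeSet.ncard := by
        rw [← SimpleGraph.coe_edgeFinset, Set.ncard_coe_finset]
  · rw [SimpleGraph.not_free]
    refine ⟨⟨⟨φ, ?_⟩, φ.injective⟩⟩
    intro a b hab
    obtain ⟨h1, h2⟩ := hmem s(a, b) hab
    rw [← SimpleGraph.mem_edgeSet, gr_edgeSet]
    exact ⟨h1, Finset.mem_filter.mpr ⟨h2, s(a, b), hab, rfl⟩⟩

/-- a connected graph with two edges has a vertex with two neighbours -/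
theorem exists_two_neighbours {W : Type*} (H : SimpleGraph W) (hc : H.Connected)
    (h2 : 2 ≤ H.edgeSet.ncard) : ∃ u v w, v ≠ w ∧ H.Adj u v ∧ H.Adj u w := by
  by_contra hcon
  push Not at hcon
  have huniq : ∀ u v w, H.Adj u v → H.Adj u w → v = w := by
    intro u v w h1 h3
    by_contra hne
    exact hcon u v w hne h1 h3
  have hpos : H.edgeSet.ncard ≠ 0 := by omega
  have hne : H.edgeSet.Nonempty := by
    by_contra h
    rw [Set.not_nonempty_iff_eq_empty] at h
    rw [h, Set.ncard_empty] at hpos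
    exact hpos rfl
  obtain ⟨e, he⟩ := hne
  induction e with
  | _ u v =>
  have hreach : ∀ x, H.Reachable u x → x = u ∨ x = v := by
    intro x hx
    obtain ⟨p⟩ := hx
    have : ∀ (y z : W) (p : H.Walk y z), (y = u ∨ y = v) → (z = u ∨ z = v) := by
      intro y z p
      induction p with
      | nil => exact id
      | cons hadj p ih =>
        intro hy
        apply ih
        rcases hy with rfl | rfl
        · exact Or.inr (huniq _ _ _ hadj he)
        · exact Or.inl (huniq _ _ _ hadj he.symm)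
    exact this _ _ p (Or.inl rfl)
  have hsub : H.edgeSet ⊆ {s(u, v)} := by
    intro e' he'
    induction e' with
    | _ x y =>
    have h3 := hreach x (hc.preconnected u x)
    rw [SimpleGraph.mem_edgeSet] at he'
    rcases h3 with rfl | rfl
    · rw [huniq _ _ _ he' he]; rfl
    · rw [huniq _ _ _ he' he.symm, Sym2.eq_swap]; rfl
  have := Set.ncard_le_ncard hsub
  rw [Set.ncard_singleton] at this
  omega

/-- linear lower bound for the extremal number -/
theorem le_extremal {W : Type*} (H : SimpleGraph W) (hc : H.Connected)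
    (h2 : 2 ≤ H.edgeSet.ncard) (n : ℕ) (hn : 2 ≤ n) :
    n ≤ 3 * SimpleGraph.extremalNumber n H := by
  classical
  obtain ⟨u, v, w, hvw, huv, huw⟩ := exists_two_neighbours H hc h2
  let M : SimpleGraph (Fin n) := SimpleGraph.fromRel fun i j => i.val / 2 = j.val / 2
  have hMadj : ∀ i j : Fin n, M.Adj i j ↔ i ≠ j ∧ i.val / 2 = j.val / 2 := by
    intro i j
    rw [SimpleGraph.fromRel_adj]
    constructor
    · rintro ⟨h1, h2 | h2⟩
      · exact ⟨h1, h2⟩
      · exact ⟨h1, h2.symm⟩
    · rintro ⟨h1, h2⟩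
      exact ⟨h1, Or.inl h2⟩
  have hfree : H.Free M := by
    rintro ⟨φ⟩
    have h3 := (hMadj _ _).mp (φ.toHom.map_adj huv)
    have h4 := (hMadj _ _).mp (φ.toHom.map_adj huw)
    have h5 : φ v ≠ φ w := fun h => hvw (φ.injective h)
    rw [SimpleGraph.Copy.toHom_apply, SimpleGraph.Copy.toHom_apply] at h3 h4
    have h6 : (φ v).val ≠ (φ w).val := fun h => h5 (Fin.ext h)
    have h7 : (φ u).val ≠ (φ v).val := fun h => h3.1 (Fin.ext h)
    have h8 : (φ u).val ≠ (φ w).val := fun h => h4.1 (Fin.ext h)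
    omega
  have h1 := SimpleGraph.card_edgeFinset_le_extremalNumber hfree
  rw [Fintype.card_fin] at h1
  let g : Fin (n / 2) → Sym2 (Fin n) := fun k =>
    s(⟨2 * k.val, by omega⟩, ⟨2 * k.val + 1, by omega⟩)
  have hg : Function.Injective g := by
    intro k l hkl
    simp only [g, Sym2.eq_iff, Fin.mk.injEq] at hkl
    apply Fin.ext
    omega
  have h3 : (univ : Finset (Fin (n / 2))).image g ⊆ M.edgeFinset := by
    intro e he
    obtain ⟨k, _, rfl⟩ := Finset.mem_image.mp he
    rw [SimpleGraph.mem_edgeFinset, SimpleGraph.mem_edgeSet, hMadj]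
    refine ⟨fun h => ?_, ?_⟩
    · rw [Fin.mk.injEq] at h; omega
    · show 2 * k.val / 2 = (2 * k.val + 1) / 2
      omega
  have h4 := Finset.card_le_card h3
  rw [Finset.card_image_of_injective _ hg, Finset.card_univ, Fintype.card_fin] at h4
  have h5 : n / 2 ≤ SimpleGraph.extremalNumber n H := h4.trans h1
  omega

end Q223.HF
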