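import Pool.Agent.Q223.HF.Core

set_option autoImplicit false

/-! The rejection probability of the canonical tester. -/

namespace Q223.HF

open Finset

variable {Λ : Type} [Fintype Λ] [DecidableEq Λ]

open Classical in
/-- If all members of the down-closed family with certificates of size at most `h` are `ε`-far from
`F`, then a sample of size `m` catches a certificate with probability at least `2/3`. -/
theorem reject (𝓕 : Finset Λ → Prop) (hdown : ∀ S T, S ⊆ T → 𝓕 T → 𝓕 S) (h : ℕ)
    (hcert : ∀ S, ¬ 𝓕 S → ∃ T ⊆ S, T.card ≤ h ∧ ¬ 𝓕 T)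
    (F : Finset Λ) (μ : Λ → ℝ) (hμ : ∀ x, 0 ≤ μ x) (h1 : ∑ x, μ x = 1) (ε : ℝ) (hε1 : ε ≤ 1)
    (hfar : ∀ g, 𝓕 g → g ⊆ F → ε ≤ ∑ x ∈ F \ g, μ x)
    (N a k b m : ℕ) (hb : 1 ≤ b)
    (c1 : ((univ.filter fun g : Finset Λ => 𝓕 g).card : ℝ) * (2 ^ a * (1 - ε / 2) ^ N) ≤ 1 / 12)
    (c2 : (k - 1) * h ≤ a) (c3 : (1 - 1 / (b : ℝ) ^ h) ^ k ≤ 1 / 12)
    (c4 : m ≤ N) (c5 : 2 * N ≤ b * (m + 1)) :
    ∑ x : Fin m → Λ, wt μ x * (if 𝓕 (F.filter fun v => ∃ i, x i = v) then 1 else 0) ≤ 1 / 3 := by
  obtain ⟨b, rfl⟩ : ∃ b', b = b' + 1 := ⟨b - 1, by omega⟩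
  -- positive indices and indices of a colour
  let P : (Fin N → Λ) → Finset (Fin N) := fun y => univ.filter fun i => y i ∈ F
  let A : (Fin N → Fin (b + 1)) → Finset (Fin N) := fun χ => univ.filter fun i => χ i = 0
  let Q : Finset (Fin N) → ℝ := fun B =>
    ∑ y : Fin N → Λ, wt μ y * (if 𝓕 ((P y ∩ B).image y) then 1 else 0)
  let good : (Fin N → Λ) → Prop := fun y => ∀ g, 𝓕 g → g ⊆ F →
    a < (univ.filter fun i => y i ∈ F \ g).card
  -- the probability of bad samples
  have hbad : ∑ y : Fin N → Λ, wt μ y * (if good y then 0 else 1) ≤ 1 / 12 := by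
    refine le_trans ?_ c1
    have h2 : ∀ y : Fin N → Λ, wt μ y * (if good y then 0 else 1) ≤
        ∑ g ∈ univ.filter (fun g : Finset Λ => 𝓕 g ∧ g ⊆ F),
          (if (univ.filter fun i => y i ∈ F \ g).card ≤ a then wt μ y else 0) := by
      intro y
      by_cases hy : good y
      · simp only [hy, if_true, mul_zero]
        exact Finset.sum_nonneg fun g _ => by
          split_ifs
          · exact wt_nonneg hμ y
          · exact le_rfl
      · simp only [hy, if_false, mul_one]
        have hy' : ∃ g, 𝓕 g ∧ g ⊆ F ∧ (univ.filter fun i => y i ∈ F \ g).card ≤ a := by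
          simp only [good] at hy
          push Not at hy
          exact hy
        obtain ⟨g, hg1, hg2, hg3⟩ := hy'
        have h3 := Finset.single_le_sum (f := fun g : Finset Λ =>
          (if (univ.filter fun i => y i ∈ F \ g).card ≤ a then wt μ y else 0))
          (s := univ.filter (fun g : Finset Λ => 𝓕 g ∧ g ⊆ F))
          (fun g _ => by
            split_ifs
            · exact wt_nonneg hμ y
            · exact le_rfl) (a := g) (by simp [hg1, hg2])
        simp only [hg3, if_true] at h3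
        exact h3
    refine (Finset.sum_le_sum fun y _ => h2 y).trans ?_
    rw [Finset.sum_comm]
    have h4 : ∀ g ∈ univ.filter (fun g : Finset Λ => 𝓕 g ∧ g ⊆ F),
        ∑ y : Fin N → Λ, (if (univ.filter fun i => y i ∈ F \ g).card ≤ a then wt μ y else 0) ≤
          2 ^ a * (1 - ε / 2) ^ N := by
      intro g hg
      rw [Finset.mem_filter] at hg
      have := tail (ι := Fin N) hμ h1 (F \ g) ε hε1 (hfar g hg.2.1 hg.2.2) a
      rwa [Fintype.card_fin] at this
    refine (Finset.sum_le_sum h4).trans ?_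
    rw [Finset.sum_const, nsmul_eq_mul]
    have h5 : 0 ≤ 2 ^ a * (1 - ε / 2) ^ N := by
      have : 0 ≤ 1 - ε / 2 := by linarith
      positivity
    refine mul_le_mul_of_nonneg_right ?_ h5
    exact_mod_cast Finset.card_le_card (fun g hg => by
      simp only [Finset.mem_filter, Finset.mem_univ, true_and] at hg ⊢
      exact hg.1)
  -- the average over colourings
  have havg : ∑ χ : Fin N → Fin (b + 1), Q (A χ) ≤ (1 / 6) * ((b : ℝ) + 1) ^ N := by
    have h2 : ∑ χ : Fin N → Fin (b + 1), Q (A χ) = ∑ y : Fin N → Λ, wt μ y *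
        ((univ.filter fun χ : Fin N → Fin (b + 1) => 𝓕 ((P y ∩ A χ).image y)).card : ℝ) := by
      simp only [Q]
      rw [Finset.sum_comm]
      refine Finset.sum_congr rfl fun y _ => ?_
      rw [← Finset.mul_sum, Finset.sum_boole]
    rw [h2]
    have h3 : ∀ y : Fin N → Λ, wt μ y *
        ((univ.filter fun χ : Fin N → Fin (b + 1) => 𝓕 ((P y ∩ A χ).image y)).card : ℝ) ≤
        (wt μ y * (if good y then 0 else 1)) * ((b : ℝ) + 1) ^ N +
          wt μ y * ((1 / 12) * ((b : ℝ) + 1) ^ N) := by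
      intro y
      have hw := wt_nonneg hμ y
      by_cases hy : good y
      · simp only [hy, if_true, mul_zero, zero_mul, zero_add]
        refine mul_le_mul_of_nonneg_left ?_ hw
        have hJ : ∀ J ⊆ P y, J.card ≤ a → ¬ 𝓕 ((P y \ J).image y) := by
          intro J hJP hJa hF
          have hsub : (P y \ J).image y ⊆ F := by
            intro v hv
            obtain ⟨i, hi, rfl⟩ := Finset.mem_image.mp hv
            exact (Finset.mem_filter.mp (Finset.mem_sdiff.mp hi).1).2
          have h4 := hy _ hF hsub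
          have h5 : (univ.filter fun i => y i ∈ F \ (P y \ J).image y) ⊆ J := by
            intro i hi
            rw [Finset.mem_filter, Finset.mem_sdiff] at hi
            by_contra hiJ
            exact hi.2.2 (Finset.mem_image.mpr ⟨i, Finset.mem_sdiff.mpr
              ⟨Finset.mem_filter.mpr ⟨Finset.mem_univ _, hi.2.1⟩, hiJ⟩, rfl⟩)
          have := Finset.card_le_card h5
          omega
        obtain ⟨I, hd, hI⟩ := greedy 𝓕 h hcert y (P y) a hJ k c2
        have h6 := color_avoid (0 : Fin (b + 1)) h k I hd (fun j => (hI j).2.1)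
        rw [Fintype.card_fin, Fintype.card_fin] at h6
        have h7 : ((univ.filter fun χ : Fin N → Fin (b + 1) =>
            𝓕 ((P y ∩ A χ).image y)).card : ℝ) ≤
            ((univ.filter fun χ : Fin N → Fin (b + 1) =>
              ∀ j, ¬ ∀ i ∈ I j, χ i = 0).card : ℝ) := by
          exact_mod_cast Finset.card_le_card (fun χ hχ => by
            rw [Finset.mem_filter] at hχ ⊢
            refine ⟨Finset.mem_univ _, fun j hj => (hI j).2.2 (hdown _ _ ?_ hχ.2)⟩
            refine Finset.image_subset_image fun i hi => Finset.mem_inter.mpr ⟨(hI j).1 hi, ?_⟩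
            exact Finset.mem_filter.mpr ⟨Finset.mem_univ _, hj i hi⟩)
        have h8 : (1 - 1 / ((b + 1 : ℕ) : ℝ) ^ h) ^ k * ((b + 1 : ℕ) : ℝ) ^ N ≤
            1 / 12 * ((b + 1 : ℕ) : ℝ) ^ N :=
          mul_le_mul_of_nonneg_right c3 (by positivity)
        have h9 : ((univ.filter fun χ : Fin N → Fin (b + 1) =>
              ∀ j, ¬ ∀ i ∈ I j, χ i = 0).card : ℝ) ≤
              (1 - 1 / ((b + 1 : ℕ) : ℝ) ^ h) ^ k * ((b + 1 : ℕ) : ℝ) ^ N := by
          convert h6
        refine h7.trans (h9.trans (h8.trans (le_of_eq ?_)))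
        push_cast
        ring
      · simp only [hy, if_false, mul_one]
        have h4 : ((univ.filter fun χ : Fin N → Fin (b + 1) =>
            𝓕 ((P y ∩ A χ).image y)).card : ℝ) ≤ ((b : ℝ) + 1) ^ N := by
          have := Finset.card_le_univ (univ.filter fun χ : Fin N → Fin (b + 1) =>
            𝓕 ((P y ∩ A χ).image y))
          rw [Fintype.card_fun, Fintype.card_fin, Fintype.card_fin] at this
          exact_mod_cast this
        have h5 : 0 ≤ wt μ y * ((1 / 12) * ((b : ℝ) + 1) ^ N) := by positivity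
        have h6 := mul_le_mul_of_nonneg_left h4 hw
        linarith
    refine (Finset.sum_le_sum fun y _ => h3 y).trans ?_
    rw [Finset.sum_add_distrib, ← Finset.sum_mul, ← Finset.sum_mul, wt_sum h1, one_mul]
    have hp : 0 < ((b : ℝ) + 1) ^ N := by positivity
    nlinarith [hbad]
  -- a good colouring
  obtain ⟨χ, hχ1, hχ2⟩ : ∃ χ : Fin N → Fin (b + 1), (A χ).card ≤ m ∧ Q (A χ) ≤ 1 / 3 := by
    by_contra hcon
    push Not at hcon
    have h2 := color_small (ι := Fin N) (0 : Fin (b + 1)) m (by simpa using c5)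
    rw [Fintype.card_fin, Fintype.card_fin] at h2
    set G := univ.filter fun χ : Fin N → Fin (b + 1) => (univ.filter fun i => χ i = 0).card ≤ m
      with hG
    have hGR : ((b : ℝ) + 1) ^ N ≤ 2 * (G.card : ℝ) := by exact_mod_cast h2
    have hGpos : 0 < G.card := by
      have : 0 < (b + 1) ^ N := by positivity
      omega
    have hQ0 : ∀ B, 0 ≤ Q B := fun B => Finset.sum_nonneg fun y _ => by
      have := wt_nonneg hμ y
      split_ifs <;> simp [this]
    have h3 : ∑ χ ∈ G, (1 / 3 : ℝ) < ∑ χ ∈ G, Q (A χ) := by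
      refine Finset.sum_lt_sum_of_nonempty (Finset.card_pos.mp hGpos) fun χ hχ => ?_
      exact hcon χ (Finset.mem_filter.mp hχ).2
    have h4 : ∑ χ ∈ G, Q (A χ) ≤ ∑ χ : Fin N → Fin (b + 1), Q (A χ) :=
      Finset.sum_le_sum_of_subset_of_nonneg (Finset.subset_univ _) fun χ _ _ => hQ0 _
    rw [Finset.sum_const, nsmul_eq_mul] at h3
    nlinarith [h3, h4, havg, hGR]
  -- enlarge the class to size `m`
  obtain ⟨B, hB1, hB2⟩ : ∃ B : Finset (Fin N), A χ ⊆ B ∧ B.card = m :=
    Finset.exists_superset_card_eq hχ1 (by simpa using c4)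
  let e : Fin m ↪ Fin N := (B.orderEmbOfFin hB2).toEmbedding
  have he : ∀ i, i ∈ B ↔ ∃ j, e j = i := by
    intro i
    rw [← Finset.mem_coe, ← Finset.range_orderEmbOfFin B hB2]
    exact Iff.rfl
  have h2 := marginal (ι := Fin N) (κ := Fin m) h1 e
    (fun x => if 𝓕 (F.filter fun v => ∃ i, x i = v) then 1 else 0)
  rw [← h2]
  refine le_trans (Finset.sum_le_sum fun y _ => ?_) hχ2
  refine mul_le_mul_of_nonneg_left ?_ (wt_nonneg hμ y)
  by_cases h3 : 𝓕 (F.filter fun v => ∃ i, y (e i) = v)
  · have h4 : 𝓕 ((P y ∩ A χ).image y) := by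
      refine hdown _ _ (fun v hv => ?_) h3
      obtain ⟨i, hi, rfl⟩ := Finset.mem_image.mp hv
      rw [Finset.mem_inter] at hi
      obtain ⟨j, hj⟩ := (he i).mp (hB1 hi.2)
      exact Finset.mem_filter.mpr ⟨(Finset.mem_filter.mp hi.1).2, j, by rw [hj]⟩
    rw [if_pos h3, if_pos h4]
  · rw [if_neg h3]
    split_ifs <;> norm_num

end Q223.HF
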