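import Mathlib

set_option autoImplicit false

/-! The choice of the parameters. -/

namespace Q223.HF

theorem exp_neg_three_le : Real.exp (-3) ≤ 1 / 12 := by
  rw [Real.exp_neg, ← one_div]
  apply one_div_le_one_div_of_le (by norm_num)
  have h3 : Real.exp 3 = Real.exp 1 ^ 3 := by
    rw [← Real.exp_nat_mul]; norm_num
  have h4 := Real.exp_one_gt_d9
  rw [h3]
  calc (12 : ℝ) ≤ 2.7182818283 ^ 3 := by norm_num
    _ ≤ _ := by gcongr

theorem params_one (n d a N : ℕ) (hn : 2 ≤ n) (ε X : ℝ) (hε0 : 0 < ε) (hε1 : ε ≤ 1)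
    (ha1 : (a : ℝ) ≤ ε * N / 4) (hlog2 : 2 * d * Real.log n ≤ X) (hX : X + 3 ≤ ε * N / 4) :
    ((n : ℝ) ^ 2) ^ d * (2 ^ a * (1 - ε / 2) ^ N) ≤ 1 / 12 := by
  have hnR : (0 : ℝ) < n := by
    have : (2 : ℝ) ≤ n := by exact_mod_cast hn
    linarith
  have e1 : ((n : ℝ) ^ 2) ^ d = Real.exp (2 * d * Real.log n) := by
    rw [← pow_mul, ← Real.rpow_natCast, Real.rpow_def_of_pos hnR]
    congr 1
    push_cast
    ring
  have e2' : (2 : ℝ) ^ a ≤ Real.exp (0.7 * (ε * N / 4)) := by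
    have h2 : (2 : ℝ) ≤ Real.exp 0.7 := by
      have h3 := Real.log_two_lt_d9
      have h4 : Real.log 2 ≤ 0.7 := by linarith
      exact (Real.log_le_iff_le_exp (by norm_num)).mp h4
    calc (2 : ℝ) ^ a ≤ (Real.exp 0.7) ^ a := pow_le_pow_left₀ (by norm_num) h2 a
      _ = Real.exp (a * 0.7) := by rw [← Real.exp_nat_mul]
      _ ≤ _ := Real.exp_le_exp.mpr (by linarith)
  have hposA : (0 : ℝ) ≤ 1 - ε / 2 := by linarith
  have e3 : (1 - ε / 2) ^ N ≤ Real.exp (-(ε * N / 2)) := by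
    have h2 : 1 - ε / 2 ≤ Real.exp (-(ε / 2)) := by
      have := Real.add_one_le_exp (-(ε / 2)); linarith
    calc (1 - ε / 2) ^ N ≤ (Real.exp (-(ε / 2))) ^ N := pow_le_pow_left₀ hposA h2 N
      _ = Real.exp (N * -(ε / 2)) := by rw [← Real.exp_nat_mul]
      _ = _ := by congr 1; ring
  have hposB : (0 : ℝ) ≤ (1 - ε / 2) ^ N := pow_nonneg hposA N
  have hεN : 0 ≤ ε * N / 4 := by positivity
  calc ((n : ℝ) ^ 2) ^ d * (2 ^ a * (1 - ε / 2) ^ N)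
      ≤ Real.exp (2 * d * Real.log n) * (Real.exp (0.7 * (ε * N / 4)) *
        Real.exp (-(ε * N / 2))) := by
        rw [e1]
        refine mul_le_mul_of_nonneg_left ?_ (Real.exp_pos _).le
        exact mul_le_mul e2' e3 hposB (Real.exp_pos _).le
    _ = Real.exp (2 * d * Real.log n + (0.7 * (ε * N / 4) + -(ε * N / 2))) := by
        rw [Real.exp_add, Real.exp_add]
    _ ≤ Real.exp (-3) := by
        apply Real.exp_le_exp.mpr
        linarith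
    _ ≤ 1 / 12 := exp_neg_three_le

theorem params_three (b k h : ℕ) (hb : 1 ≤ b) (hk : (b : ℝ) ^ h ≤ k / 3) :
    (1 - 1 / (b : ℝ) ^ h) ^ k ≤ 1 / 12 := by
  have hbR : (1 : ℝ) ≤ b := by exact_mod_cast hb
  have h2 : (1 : ℝ) ≤ (b : ℝ) ^ h := one_le_pow₀ hbR
  have h0 : (0 : ℝ) < (b : ℝ) ^ h := by linarith
  have h3 : 1 - 1 / (b : ℝ) ^ h ≤ Real.exp (-(1 / (b : ℝ) ^ h)) := by
    have := Real.add_one_le_exp (-(1 / (b : ℝ) ^ h)); linarith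
  have h4 : 0 ≤ 1 - 1 / (b : ℝ) ^ h := by
    rw [sub_nonneg, div_le_one h0]; exact h2
  calc (1 - 1 / (b : ℝ) ^ h) ^ k ≤ (Real.exp (-(1 / (b : ℝ) ^ h))) ^ k :=
        pow_le_pow_left₀ h4 h3 k
    _ = Real.exp (k * -(1 / (b : ℝ) ^ h)) := by rw [← Real.exp_nat_mul]
    _ ≤ Real.exp (-3) := by
        apply Real.exp_le_exp.mpr
        have : 3 ≤ (k : ℝ) / (b : ℝ) ^ h := by
          rw [le_div_iff₀ h0]; linarith
        have h5 : (k : ℝ) * -(1 / (b : ℝ) ^ h) = -((k : ℝ) / (b : ℝ) ^ h) := by ring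
        linarith
    _ ≤ 1 / 12 := exp_neg_three_le

theorem params_two (h : ℕ) (hh : 2 ≤ h) (ε : ℝ) (hε0 : 0 < ε) (hε1 : ε ≤ 1) (N : ℕ)
    (hN : 12 * h * 2 ^ h ≤ ε * N) :
    ∃ a k b m : ℕ, (a : ℝ) ≤ ε * N / 4 ∧ 1 ≤ b ∧ (k - 1) * h ≤ a ∧ (b : ℝ) ^ h ≤ k / 3 ∧ m ≤ N ∧
      2 * N ≤ b * (m + 1) ∧ 0 < m ∧
      (m : ℝ) ≤ 4 * (12 * h / ε) ^ (1 / (h : ℝ)) * (N : ℝ) ^ (1 - 1 / (h : ℝ)) := by
  have hhR : (2 : ℝ) ≤ h := by exact_mod_cast hh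
  have hh0 : (0 : ℝ) < h := by linarith
  have hinv : (1 : ℝ) / h ≤ 1 / 2 := by
    rw [div_le_div_iff₀ hh0 (by norm_num)]; linarith
  have hNpos : (0 : ℝ) < N := by
    have h1 : (0 : ℝ) < 12 * h * 2 ^ h := by positivity
    by_contra hcon
    have : (N : ℝ) = 0 := le_antisymm (not_lt.mp hcon) (Nat.cast_nonneg N)
    rw [this, mul_zero] at hN
    linarith
  obtain ⟨a, ha1, ha2⟩ : ∃ a : ℕ, (a : ℝ) ≤ ε * N / 4 ∧ ε * N / 4 < a + 1 :=
    ⟨⌊ε * N / 4⌋₊, Nat.floor_le (by positivity), Nat.lt_floor_add_one _⟩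
  obtain ⟨k, hk1, hk2, hka⟩ : ∃ k : ℕ, (k - 1) * h ≤ a ∧ a + 1 ≤ k * h ∧ k ≤ a + 1 := by
    refine ⟨a / h + 1, ?_, ?_, ?_⟩
    · rw [Nat.add_sub_cancel]; exact Nat.div_mul_le_self a h
    · have := Nat.lt_div_mul_add (a := a) (b := h) (by omega)
      nlinarith
    · have := Nat.div_le_self a h
      omega
  have hk2' : (a : ℝ) + 1 ≤ k * h := by exact_mod_cast hk2
  have hk3 : ε * N / (4 * h) ≤ k := by
    rw [div_le_iff₀ (by positivity)]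
    linarith
  have hk4 : (3 : ℝ) * 2 ^ h ≤ k := by
    refine le_trans ?_ hk3
    rw [le_div_iff₀ (by positivity)]
    linarith
  have hkpos : (0 : ℝ) < k := by
    have : (0 : ℝ) < 3 * 2 ^ h := by positivity
    linarith
  obtain ⟨t, ht⟩ : ∃ t : ℝ, t = ((k : ℝ) / 3) ^ (1 / (h : ℝ)) := ⟨_, rfl⟩
  have hth : t ^ h = (k : ℝ) / 3 := by
    rw [ht, ← Real.rpow_natCast, ← Real.rpow_mul (by positivity)]
    rw [one_div_mul_cancel hh0.ne', Real.rpow_one]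
  have ht0 : 0 < t := by rw [ht]; positivity
  have ht2 : 2 ≤ t := by
    refine le_of_pow_le_pow_left₀ (n := h) (by omega) ht0.le ?_
    rw [hth]; linarith
  obtain ⟨b, hb1, hb2⟩ : ∃ b : ℕ, (b : ℝ) ≤ t ∧ t < b + 1 :=
    ⟨⌊t⌋₊, Nat.floor_le ht0.le, Nat.lt_floor_add_one _⟩
  have hb3 : 2 ≤ b := by
    by_contra hcon
    have : b ≤ 1 := by omega
    have : (b : ℝ) ≤ 1 := by exact_mod_cast this
    linarith
  have hb3R : (2 : ℝ) ≤ b := by exact_mod_cast hb3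
  have hbh : (b : ℝ) ^ h ≤ k / 3 := by
    rw [← hth]; exact pow_le_pow_left₀ (by linarith) hb1 h
  have hbk : b ≤ k := by
    have h1 : (b : ℝ) ≤ (b : ℝ) ^ h := le_self_pow₀ (by linarith) (by omega)
    have : (b : ℝ) ≤ k := by linarith
    exact_mod_cast this
  have haN : a ≤ N := by
    have : (a : ℝ) ≤ N := by nlinarith
    exact_mod_cast this
  have hN1' : 1 ≤ N := by exact_mod_cast hNpos
  refine ⟨a, k, b, 2 * N / b, ha1, by omega, hk1, hbh, ?_, ?_, ?_, ?_⟩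
  · calc 2 * N / b ≤ 2 * N / 2 := Nat.div_le_div_left hb3 (by norm_num)
      _ = N := by omega
  · have := Nat.lt_div_mul_add (a := 2 * N) (b := b) (by omega)
    nlinarith
  · apply Nat.div_pos _ (by omega)
    omega
  · have h1 : ((2 * N / b : ℕ) : ℝ) ≤ 2 * N / b := by
      have := @Nat.cast_div_le ℝ _ _ _ (2 * N) b
      push_cast at this
      exact this
    have h2 : t / 2 ≤ b := by linarith
    have h3 : ((2 * N / b : ℕ) : ℝ) ≤ 4 * N / t := by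
      refine h1.trans ?_
      rw [div_le_div_iff₀ (by linarith) ht0]
      nlinarith
    refine h3.trans ?_
    have h4 : (ε * N / (12 * h)) ^ (1 / (h : ℝ)) ≤ t := by
      rw [ht]
      refine Real.rpow_le_rpow (by positivity) ?_ (by positivity)
      rw [div_le_div_iff₀ (by positivity) (by norm_num)]
      rw [div_le_iff₀ (by positivity)] at hk3
      linarith
    have h5 : (0 : ℝ) < (ε * N / (12 * h)) ^ (1 / (h : ℝ)) := by positivity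
    calc 4 * (N : ℝ) / t ≤ 4 * N / (ε * N / (12 * h)) ^ (1 / (h : ℝ)) :=
          div_le_div_of_nonneg_left (by positivity) h5 h4
      _ = 4 * (12 * h / ε) ^ (1 / (h : ℝ)) * (N : ℝ) ^ (1 - 1 / (h : ℝ)) := by
          rw [Real.rpow_sub hNpos, Real.rpow_one]
          have h6 : ε * N / (12 * h) = (12 * h / ε)⁻¹ * N := by
            rw [inv_div]; ring
          rw [h6, Real.mul_rpow (by positivity) (by positivity), Real.inv_rpow (by positivity)]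
          rw [mul_comm ((12 * (h : ℝ) / ε) ^ (1 / (h : ℝ)))⁻¹, ← div_eq_mul_inv, div_div_eq_mul_div]
          ring

theorem params (h : ℕ) (hh : 2 ≤ h) (c : ℝ) (hc : c < 1 / h) (ε : ℝ)
    (hε0 : 0 < ε) (hε1 : ε ≤ 1) :
    ∃ C : ℝ, 0 < C ∧ ∀ n d : ℕ, 2 ≤ n → n ≤ 3 * d → ∃ N a k b m : ℕ, 1 ≤ b ∧
      ((n : ℝ) ^ 2) ^ d * (2 ^ a * (1 - ε / 2) ^ N) ≤ 1 / 12 ∧ (k - 1) * h ≤ a ∧
      (1 - 1 / (b : ℝ) ^ h) ^ k ≤ 1 / 12 ∧ m ≤ N ∧ 2 * N ≤ b * (m + 1) ∧ 0 < m ∧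
      (m : ℝ) ≤ C * (d : ℝ) ^ (1 - c) := by
  have hhR : (2 : ℝ) ≤ h := by exact_mod_cast hh
  have hh0 : (0 : ℝ) < h := by linarith
  have hinv : (1 : ℝ) / h ≤ 1 / 2 := by
    rw [div_le_div_iff₀ hh0 (by norm_num)]; linarith
  obtain ⟨δ, hδ⟩ : ∃ δ : ℝ, δ = (1 / h - c) / (1 - 1 / h) := ⟨_, rfl⟩
  have hδ0 : 0 < δ := by rw [hδ]; exact div_pos (by linarith) (by linarith)
  have hδe : (1 + δ) * (1 - 1 / h) = 1 - c := by
    have h1 : (1 : ℝ) - 1 / h ≠ 0 := by linarith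
    have h2 : δ * (1 - 1 / h) = 1 / h - c := by rw [hδ, div_mul_cancel₀ _ h1]
    rw [add_mul, h2]; ring
  obtain ⟨L, hL⟩ : ∃ L : ℝ, L = 3 ^ δ / δ := ⟨_, rfl⟩
  have hL0 : 0 < L := by rw [hL]; positivity
  obtain ⟨K, hKε, hK0⟩ : ∃ K : ℝ, K * ε = 4 * (2 * L + 3) + 12 * h * 2 ^ h ∧ 0 < K :=
    ⟨(4 * (2 * L + 3) + 12 * h * 2 ^ h) / ε, by rw [div_mul_cancel₀ _ hε0.ne'], by positivity⟩
  refine ⟨4 * (12 * h / ε) ^ (1 / (h : ℝ)) * (K + 1) ^ (1 - 1 / (h : ℝ)), by positivity,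
    fun n d hn hnd => ?_⟩
  have hd : 1 ≤ d := by omega
  have hdR : (1 : ℝ) ≤ d := by exact_mod_cast hd
  obtain ⟨D, hD⟩ : ∃ D : ℝ, D = (d : ℝ) ^ (1 + δ) := ⟨_, rfl⟩
  have hD1 : 1 ≤ D := by rw [hD]; exact Real.one_le_rpow hdR (by linarith)
  have hDd : (d : ℝ) * (d : ℝ) ^ δ = D := by
    rw [hD, Real.rpow_add (by linarith), Real.rpow_one]
  obtain ⟨N, hN1, hN2⟩ : ∃ N : ℕ, K * D ≤ N ∧ (N : ℝ) ≤ (K + 1) * D := by
    refine ⟨⌈K * D⌉₊, Nat.le_ceil _, ?_⟩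
    have := (Nat.ceil_lt_add_one (show 0 ≤ K * D by positivity)).le
    linarith
  have hNε : (4 * (2 * L + 3) + 12 * h * 2 ^ h) * D ≤ ε * N := by
    calc (4 * (2 * L + 3) + 12 * h * 2 ^ h) * D = ε * (K * D) := by rw [← hKε]; ring
      _ ≤ ε * N := mul_le_mul_of_nonneg_left hN1 hε0.le
  have h12 : (0 : ℝ) ≤ 12 * h * 2 ^ h := by positivity
  have hNε1 : 12 * h * 2 ^ h ≤ ε * N := by nlinarith
  have hNε2 : 2 * L * D + 3 ≤ ε * N / 4 := by nlinarith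
  obtain ⟨a, k, b, m, ha1, hb, hk1, hbk, hmN, hNb, hm0, hm⟩ := params_two h hh ε hε0 hε1 N hNε1
  have hlog : Real.log n ≤ L * (d : ℝ) ^ δ := by
    have h1 := Real.log_le_rpow_div (show (0 : ℝ) ≤ n by positivity) hδ0
    have h2 : (n : ℝ) ^ δ ≤ (3 * d : ℝ) ^ δ := by
      refine Real.rpow_le_rpow (by positivity) ?_ hδ0.le
      exact_mod_cast hnd
    rw [Real.mul_rpow (by norm_num) (by positivity)] at h2
    calc Real.log n ≤ (n : ℝ) ^ δ / δ := h1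
      _ ≤ (3 ^ δ * (d : ℝ) ^ δ) / δ := by gcongr
      _ = L * (d : ℝ) ^ δ := by rw [hL]; ring
  have hlog2 : 2 * d * Real.log n ≤ 2 * L * D := by
    rw [← hDd]
    calc 2 * d * Real.log n ≤ 2 * d * (L * (d : ℝ) ^ δ) :=
          mul_le_mul_of_nonneg_left hlog (by positivity)
      _ = _ := by ring
  refine ⟨N, a, k, b, m, hb, params_one n d a N hn ε _ hε0 hε1 ha1 hlog2 hNε2, hk1,
    params_three b k h hb hbk, hmN, hNb, hm0, hm.trans ?_⟩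
  have h7 : 0 ≤ 1 - 1 / (h : ℝ) := by linarith
  have h8 : (N : ℝ) ^ (1 - 1 / (h : ℝ)) ≤ ((K + 1) * D) ^ (1 - 1 / (h : ℝ)) :=
    Real.rpow_le_rpow (by positivity) hN2 h7
  calc 4 * (12 * h / ε) ^ (1 / (h : ℝ)) * (N : ℝ) ^ (1 - 1 / (h : ℝ))
      ≤ 4 * (12 * h / ε) ^ (1 / (h : ℝ)) * ((K + 1) * D) ^ (1 - 1 / (h : ℝ)) :=
        mul_le_mul_of_nonneg_left h8 (by positivity)
    _ = _ := by
        rw [Real.mul_rpow (by positivity) (by positivity), hD,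
          ← Real.rpow_mul (by positivity), hδe]
        ring

end Q223.HF
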